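import Pool.Agent.X305.Li.PosHk
import Pool.Agent.X305.Li.Bohr
import Pool.Agent.H128R3.JD.DelHk

/-!
# The Ramanujan Xi function and Li coefficients along sparse sets of indices

Let `Λ(s) = ∫_0^∞ Δ(i y) y^(s-1) dy` and `Ξ_Δ(z) = Λ(6 + i z)`. For `a > 0` the map
`z ↦ 6 + a (1 + z) / (1 - z)` sends the unit disc to the half-plane `Re s > 6` and `0` to `6 + a`;
`Λ(6 + a) ≠ 0` for all `a > 0`, since `Δ(i y) > 0`. The Li coefficients are
`λ_n(a) = ∑ (1 - ((ρ - 6 - a) / (ρ - 6 + a)) ^ n)`, over the zeros `ρ` of `Λ`, that is the coefficients of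
the logarithmic derivative of `Λ(6 + a (1 + z) / (1 - z))` at `z = 0`. All zeros of `Ξ_Δ` are real if and
only if `λ_n(a) ≥ 0` for all `n` (Li, Bombieri and Lagarias, Lagarias).

Call `S` a set of Bohr recurrence if for all real `θ_1, ..., θ_k` and `ε > 0` there is a positive `n`
in `S` such that all `n θ_j` are at distance less than `ε` from the integers, for instance the squares
and the differences of the elements of any infinite set. We prove for all `a > 0` and all such `S`:

* all zeros of `Ξ_Δ` are real if and only if `λ_n(a) ≥ 0` for all positive `n ∈ S`; in particular if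
  and only if `λ_(n²)(a) ≥ 0` for all `n ≥ 1`, and if and only if `λ_(y-x)(a) ≥ 0` for all `x < y` in any
  given infinite set of natural numbers;
* all zeros `z` of `Ξ_Δ` satisfy `|(i z - a) / (i z + a)| ≥ exp (-κ)` if and only if
  `λ_n(a) ≥ - C(δ) exp ((κ + δ) n)` for all `n ∈ S` and all `δ > 0`;
* a zero `z` of `Ξ_Δ` in the lower half-plane gives `r ≤ |(i z - a) / (i z + a)| < 1` and infinitely many
  `n ∈ S` with `λ_n(a) ≤ - r ^ (-n) / 8`.

The zeros off the line which are nearest to `6 + a` in the coordinate of the disc are finitely many, and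
their contribution is a sum of cosines with equal amplitudes, which is maximal at simultaneous near
returns.
-/

set_option autoImplicit false

namespace Pool.Agent.Results.MP_cd509c_nt.LiAlongSparseSets

/-- `Δ(i y) = e^(-2πy) ∏_{n ≥ 1} (1 - e^(-2πny))^24`, the modular discriminant on the imaginary axis
(the function of the frozen statement S18517). -/
noncomputable def delta (y : ℝ) : ℝ :=
  Real.exp (-2 * Real.pi * y) * ∏' n : ℕ, (1 - Real.exp (-2 * Real.pi * ((n : ℝ) + 1) * y)) ^ 24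

/-- The completed L-function `Λ(s) = ∫_0^∞ Δ(i y) y^(s-1) dy = (2π)^(-s) Γ(s) L(s, Δ)`, an entire
function with `Λ(12 - s) = Λ(s)`. -/
noncomputable def Lam (s : ℂ) : ℂ := mellin (fun y : ℝ => ((delta y : ℝ) : ℂ)) s

/-- The Ramanujan Xi function `Ξ_Δ(z) = Λ(6 + i z)`. -/
noncomputable def Xi (z : ℂ) : ℂ := Lam (6 + Complex.I * z)

/-- Q1 (the frozen statement S18517): every zero of the Ramanujan Xi function is real. -/
def AllZerosReal : Prop := ∀ z : ℂ, Xi z = 0 → z.im = 0

/-- Li's coefficient `λ_n(a)` of `Λ`, for `n ≥ 1`: the real part of the coefficient of `z ^ (n - 1)` in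
the Taylor series at `0` of the logarithmic derivative of `Λ (6 + a (1 + z) / (1 - z))`. -/
noncomputable def li (a : ℝ) (n : ℕ) : ℝ :=
  (iteratedDeriv (n - 1) (logDeriv fun z => Lam (6 + a * ((1 + z) / (1 - z)))) 0 /
    ((n - 1).factorial : ℂ)).re

/-- For all real `θ_1, ..., θ_k` and `ε > 0` there is a positive `n ∈ S` such that all `n θ_j` are at
distance less than `ε` from the integers. -/
def BohrRecurrent (S : Set ℕ) : Prop := ∀ (k : ℕ) (θ : Fin k → ℝ) (ε : ℝ), 0 < ε →
  ∃ n ∈ S, 0 < n ∧ ∀ j, |n * θ j - round (n * θ j)| < ε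

theorem result (a : ℝ) (ha : 0 < a) :
    Lam (6 + a) ≠ 0 ∧
    (∀ S : Set ℕ, BohrRecurrent S →
      (AllZerosReal ↔ ∀ n ∈ S, 0 < n → 0 ≤ li a n) ∧
      (∀ κ : ℝ, 0 ≤ κ →
        ((∀ z : ℂ, Xi z = 0 → Real.exp (-κ) ≤ ‖(Complex.I * z - a) / (Complex.I * z + a)‖) ↔
          ∀ δ : ℝ, 0 < δ → ∃ C : ℝ, ∀ n ∈ S, -(C * Real.exp ((κ + δ) * n)) ≤ li a n)) ∧
      (∀ z : ℂ, Xi z = 0 → z.im < 0 →
        ∃ r : ℝ, 0 < r ∧ r ≤ ‖(Complex.I * z - a) / (Complex.I * z + a)‖ ∧
          ‖(Complex.I * z - a) / (Complex.I * z + a)‖ < 1 ∧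
          ∀ M : ℕ, ∃ n ∈ S, M ≤ n ∧ 0 < n ∧ li a n ≤ -(1 / 8 * (r⁻¹) ^ n))) ∧
    (AllZerosReal ↔ ∀ n : ℕ, 1 ≤ n → 0 ≤ li a (n ^ 2)) ∧
    (∀ A : Set ℕ, A.Infinite → (AllZerosReal ↔ ∀ x ∈ A, ∀ y ∈ A, x < y → 0 ≤ li a (y - x))) := by
  obtain ⟨B, hB⟩ := Pool.Agent.H128R3.JD.DelHk.isHk
  set H := Pool.Agent.H128R3.JD.DelHk.hk B with hH
  have hε : H.ε = 1 := rfl
  obtain ⟨F, hF⟩ := X305.Li.completed_hk hB
  have hk : H.k / 2 = 6 := by
    show (12 : ℝ) / 2 = 6
    norm_num
  have hLam : mellin (fun y : ℝ => ((H.φ y : ℝ) : ℂ)) = Lam := rfl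
  rw [hk, hLam] at hF
  have h6 : ((6 : ℝ) : ℂ) = 6 := by norm_num
  have hli : ∀ n, X305.Li.lic Lam 6 a n = li a n := by
    intro n
    unfold X305.Li.lic li
    rw [h6]
  have hne : Lam (6 + a) ≠ 0 := by
    have h := X305.Li.ne_of_pos hB hε (fun y hy => Pool.Agent.H128R3.JD.DelK.Dl_pos hy) a
    rw [hk, hLam, h6] at h
    exact h
  have hne' : Lam (((6 : ℝ) : ℂ) + a) ≠ 0 := by rw [h6]; exact hne
  have hRH : (∀ s : ℂ, Lam s = 0 → s.re = 6) ↔ AllZerosReal := by
    constructor
    · intro h z hz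
      have h1 := h _ hz
      simp only [Complex.add_re, Complex.re_ofNat, Complex.mul_re, Complex.I_re, zero_mul,
        Complex.I_im, one_mul, zero_sub] at h1
      linarith
    · intro h s hs
      have h1 := h (-Complex.I * (s - 6)) (by
        unfold Xi
        have : Complex.I * (-Complex.I * (s - 6)) = s - 6 := by
          rw [← mul_assoc, mul_neg, Complex.I_mul_I, neg_neg, one_mul]
        rw [this, add_sub_cancel]
        exact hs)
      simp only [neg_mul, Complex.neg_im, Complex.mul_im, Complex.I_re, zero_mul, Complex.I_im,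
        one_mul, zero_add, Complex.sub_re, Complex.re_ofNat] at h1
      linarith
  have crit : ∀ S : Set ℕ, X305.Li.BohrRec S → (AllZerosReal ↔ ∀ n ∈ S, 0 < n → 0 ≤ li a n) := by
    intro S hS
    have h := hF.criterion ha hne' hS
    rw [hRH] at h
    simpa only [hli] using h
  refine ⟨hne, fun S hS => ⟨crit S hS, ?_, ?_⟩, ?_, ?_⟩
  · intro κ hκ
    have h := hF.exponents ha hne' hS hκ
    simp only [hli] at h
    rw [← h]
    constructor
    · intro h1 s hs
      have h2 := h1 (-Complex.I * (s - 6)) (by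
        unfold Xi
        have : Complex.I * (-Complex.I * (s - 6)) = s - 6 := by
          rw [← mul_assoc, mul_neg, Complex.I_mul_I, neg_neg, one_mul]
        rw [this, add_sub_cancel]
        exact hs)
      have h3 : Complex.I * (-Complex.I * (s - 6)) = s - 6 := by
        rw [← mul_assoc, mul_neg, Complex.I_mul_I, neg_neg, one_mul]
      rw [h3] at h2
      rw [h6]
      exact h2
    · intro h1 z hz
      have h2 := h1 _ hz
      rw [h6, add_sub_cancel_left] at h2
      exact h2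
  · intro z hz him
    have hre : 0 < (Complex.I * z).re := by
      simp only [Complex.mul_re, Complex.I_re, zero_mul, Complex.I_im, one_mul, zero_sub]
      linarith
    obtain ⟨r, hr0, hr1, hr⟩ := hF.neg ha hne' hre (by rw [h6]; exact hz) hS
    refine ⟨r, hr0, hr1, X305.Li.norm_cay_lt ha hre, fun M => ?_⟩
    obtain ⟨n, h1, h2, h3, h4⟩ := hr M
    exact ⟨n, h1, h2, h3, by rw [← hli]; exact h4⟩
  · rw [crit _ X305.Li.bohrRec_sq]
    constructor
    · intro h n hn
      exact h _ ⟨n, hn, rfl⟩ (by positivity)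
    · rintro h _ ⟨n, hn, rfl⟩ _
      exact h n hn
  · intro A hA
    rw [crit _ (X305.Li.bohrRec_diff hA)]
    constructor
    · intro h x hx y hy hxy
      exact h _ ⟨y, hy, x, hx, hxy, rfl⟩ (by omega)
    · rintro h _ ⟨y, hy, x, hx, hxy, rfl⟩ _
      exact h x hx y hy hxy

end Pool.Agent.Results.MP_cd509c_nt.LiAlongSparseSets
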