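import Pool.Agent.X284.RX.Count

/-!
# Zeros of the Ramanujan Xi function near real powers and near the denominators of approximations

Unconditionally all zeros of `Ξ_Δ` whose real parts are near `t ^ κ_n`, or near `n ^ t`, or near the
denominators `q` of good simultaneous (inhomogeneous) rational approximations to `x`, are within `δ` of the
real line, for almost all `t` or `x`, and outside sets of small Hausdorff dimension.
-/

set_option autoImplicit false

namespace Pool.Agent.Results.MP_cd509c_nt.PowersAndDenominators

open Pool.Agent.X283.DA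
open Pool.Agent.X284.RX (Close)

/-- **Theorem.** Let `0 ≤ δ ≤ 1` and `0 ≤ η ≤ 1`. The property `Close δ 0` of natural numbers holds near
the real powers `t ^ κ_n` and `n ^ t` (in the sense of `GoodAtPowers` and `GoodAtExponents`) with the
exponent `1 - δ`, and the property `Close δ η` holds for the denominators of good simultaneous
(inhomogeneous) rational approximations (`GoodAtDenominators`, `GoodAtApproximations`) with the
exponent `1 - δ + η`. -/
theorem result (δ η : ℝ) (hδ : 0 ≤ δ) (hδ1 : δ ≤ 1) (hη : 0 ≤ η) (hη1 : η ≤ 1) :
    GoodAtPowers (Close δ 0) (1 - δ) ∧ GoodAtExponents (Close δ 0) (1 - δ) ∧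
      GoodAtDenominators (Close δ η) (1 - δ + η) ∧ GoodAtApproximations (Close δ η) (1 - δ + η) := by
  have h1 := Pool.Agent.X284.RX.sparse δ 0 hδ hδ1 le_rfl zero_le_one
  rw [add_zero] at h1
  obtain ⟨a1, a2, -, -⟩ := pack (Close δ 0) (s := 1 - δ) (by linarith) h1
  obtain ⟨-, -, b3, b4⟩ := pack (Close δ η) (s := 1 - δ + η) (by linarith)
    (Pool.Agent.X284.RX.sparse δ η hδ hδ1 hη hη1)
  exact ⟨a1, a2, b3, b4⟩

end Pool.Agent.Results.MP_cd509c_nt.PowersAndDenominators
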