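import Pool.Agent.X244.TR.E
import Pool.Agent.Y771.NF.FinD

/-!
# Sums of two translates of the Ramanujan Xi function

The Ramanujan Xi function is `Ξ_Δ(z) = Λ(6 + i z)`, `Λ(s) = (2π)^(-s) Γ(s) L(s, Δ)`; it is conjectured that all its zeros
are real. Let `Z_{a,θ}(z) = e^{iθ} Ξ_Δ(z + i a) + e^{-iθ} Ξ_Δ(z - i a)`, `a > 0`, `θ` real. We prove:

* for every `a > 0`: all zeros of `Z_{a,θ}` are real for all `θ` if and only if all zeros of `Ξ_Δ` satisfy `|Im z| ≤ a`;
  all zeros of `Z_{a,θ}` are real and simple for all `θ` if and only if all zeros of `Ξ_Δ` satisfy `|Im z| < a`;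
* all zeros of `Ξ_Δ` are real if and only if for all `a > 0` and all `θ` all zeros of `Z_{a,θ}` are real;
* unconditionally, for every `a > 0` and every `c < 1` there is `C` such that for all `θ`, all `δ ≥ 0` and all `T ≥ 2`
  the number of zeros of `Z_{a,θ}` with real part in `(0, T]` and distance at least `δ` from the real line which are not
  real or not simple, counted with multiplicity, is at most `C T^(1 - c sqrt (a² + δ²))`.

Proof: a non-real zero, or a multiple real zero, `z` of `Z_{a,θ}` forces a zero `b` of `Ξ_Δ` with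
`(Im z)² + a² + (Re z - Re b)² ≤ (Im b)²` (factorization, maximum principle, and the Hopf lemma at the real line); then the
density theorem for the zeros of `Ξ_Δ` off the real line (modules `Pool.Agent.Y771.NF`, `Pool.Agent.Y24.GL`) is applied.
-/

set_option autoImplicit false

namespace Pool.Agent.Results.MP_cd509c_nt.TranslatesRealZeros

/-- `Δ(i y) = e^(-2πy) ∏_{n ≥ 1} (1 - e^(-2πny))^24`, the modular discriminant on the imaginary axis
(the function of the frozen statement S18517). -/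
noncomputable def delta (y : ℝ) : ℝ :=
  Real.exp (-2 * Real.pi * y) * ∏' n : ℕ, (1 - Real.exp (-2 * Real.pi * ((n : ℝ) + 1) * y)) ^ 24

/-- The completed L-function `Λ(s) = ∫_0^∞ Δ(i y) y^(s-1) dy = (2π)^(-s) Γ(s) L(s, Δ)`, an entire
function with `Λ(12 - s) = Λ(s)`. -/
noncomputable def Lam (s : ℂ) : ℂ := mellin (fun y : ℝ => ((delta y : ℝ) : ℂ)) s

/-- The Ramanujan Xi function `Ξ_Δ(z) = Λ(6 + i z)`. -/
noncomputable def Xi (z : ℂ) : ℂ := Lam (6 + Complex.I * z)

/-- The sum of two translates `Z_{a,θ}(z) = e^{iθ} Ξ_Δ(z + i a) + e^{-iθ} Ξ_Δ(z - i a)`. -/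
noncomputable def Zt (a θ : ℝ) (z : ℂ) : ℂ :=
  Complex.exp (Complex.I * θ) * Xi (z + Complex.I * a) + Complex.exp (-(Complex.I * θ)) * Xi (z - Complex.I * a)

/-- The zeros of `Z_{a,θ}` with real part in `(0, T]` and distance at least `δ` from the real line which are not real or
not simple. -/
def Exc (a θ δ T : ℝ) : Set ℂ :=
  {z | Zt a θ z = 0 ∧ (z.im ≠ 0 ∨ deriv (Zt a θ) z = 0) ∧ δ ≤ |z.im| ∧ 0 < z.re ∧ z.re ≤ T}

/-- The number of points of `A`, each counted with its multiplicity as a zero of `Z_{a,θ}`. -/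
noncomputable def num (a θ : ℝ) (A : Set ℂ) : ℕ := ∑ᶠ z ∈ A, analyticOrderNatAt (Zt a θ) z

/-- For every `a > 0`: all zeros of `Z_{a,θ}` are real for all `θ` iff all zeros of `Ξ_Δ` satisfy `|Im z| ≤ a`; they are
real and simple for all `θ` iff all zeros of `Ξ_Δ` satisfy `|Im z| < a`. All zeros of `Ξ_Δ` are real iff all zeros of
`Z_{a,θ}` are real for all `a > 0` and all `θ`. For all `a > 0`, `c < 1` there is `C` such that for all `θ`, `δ ≥ 0`,
`T ≥ 2` the number of non-real or multiple zeros of `Z_{a,θ}` with real part in `(0, T]` and distance at least `δ` from the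
real line is at most `C T^(1 - c sqrt (a² + δ²))`, counted with multiplicity. -/
theorem result :
    (∀ a : ℝ, 0 < a →
      ((∀ (θ : ℝ) (z : ℂ), Zt a θ z = 0 → z.im = 0) ↔ ∀ z, Xi z = 0 → |z.im| ≤ a) ∧
      ((∀ (θ : ℝ) (z : ℂ), Zt a θ z = 0 → z.im = 0 ∧ deriv (Zt a θ) z ≠ 0) ↔ ∀ z, Xi z = 0 → |z.im| < a)) ∧
    ((∀ z, Xi z = 0 → z.im = 0) ↔ ∀ a : ℝ, 0 < a → ∀ (θ : ℝ) (z : ℂ), Zt a θ z = 0 → z.im = 0) ∧
    ∀ a c : ℝ, 0 < a → c < 1 → ∃ C : ℝ, 0 < C ∧ ∀ θ δ T : ℝ, 0 ≤ δ → 2 ≤ T →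
      (Exc a θ δ T).Finite ∧
      (num a θ (Exc a θ δ T) : ℝ) ≤ C * T ^ (1 - c * Real.sqrt (a ^ 2 + δ ^ 2)) :=
  Pool.Agent.X244.TR.newform (N := 1) (k := 12) (by norm_num) Pool.Agent.Y771.NF.newf_delta Xi (fun z => by
    rw [Pool.Agent.Y771.NF.Lam_delta]
    have h : (((12 : ℕ) : ℂ)) / 2 = 6 := by norm_num
    rw [h]
    rfl)

end Pool.Agent.Results.MP_cd509c_nt.TranslatesRealZeros
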