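import Pool.Agent.Results.MP_cd509c_nt.ZeroDensity
import Pool.Agent.X35.ZW.Weight

/-!
# The zeros of the Ramanujan Xi function off the real line in windows around `α v_i`
-/

set_option autoImplicit false

namespace Pool.Agent.Results.MP_cd509c_nt.ZerosNearSequences

open Complex Finset
open Pool.Agent.Results.MP_cd509c_nt.ZeroDensity (Xi Off num)

theorem xi_eq (z : ℂ) : Xi z = Pool.Agent.Y771.NF.Lam (N := 1) (k := 12) Pool.Agent.W97.TW.deltaForm (6 + Complex.I * z) := by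
  rw [Pool.Agent.Y771.NF.Lam_delta]
  rfl

theorem xi_diff : Differentiable ℂ Xi := by
  have h1 : Differentiable ℂ (Pool.Agent.Y771.NF.Lam (N := 1) (k := 12) Pool.Agent.W97.TW.deltaForm) :=
    Pool.Agent.Y771.NF.Lam_diff (by norm_num) Pool.Agent.Y771.NF.newf_delta
  have h2 : Xi = fun z => Pool.Agent.Y771.NF.Lam (N := 1) (k := 12) Pool.Agent.W97.TW.deltaForm (6 + Complex.I * z) := funext xi_eq
  rw [h2]
  exact h1.comp ((differentiable_const _).add ((differentiable_const _).mul differentiable_id))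

theorem off_finite (δ T : ℝ) (hδ : 0 ≤ δ) : (Off δ T).Finite := by
  obtain ⟨C, _, h⟩ := Pool.Agent.Results.MP_cd509c_nt.ZeroDensity.result 0 one_pos
  exact (h δ (max T 2) hδ (le_max_right _ _)).1.subset fun z hz => ⟨hz.1, hz.2.1, hz.2.2.1, hz.2.2.2.trans (le_max_left _ _)⟩

/-- the order of a zero is at least one -/
theorem order_pos {z : ℂ} (h : Xi z = 0) : 1 ≤ analyticOrderNatAt Xi z := by
  have han : AnalyticOnNhd ℂ Xi Set.univ := (xi_diff.differentiableOn).analyticOnNhd isOpen_univ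
  obtain ⟨z₀, hz₀⟩ : ∃ z₀, Xi z₀ ≠ 0 := by
    by_contra hcon
    push Not at hcon
    have hfin := off_finite 0 1 le_rfl
    have hinf : (Set.Ioc (0 : ℝ) 1).Infinite := Set.Ioc_infinite one_pos
    apply hinf
    have hinj : Set.InjOn (fun x : ℝ => (x : ℂ)) (Set.Ioc (0 : ℝ) 1) := fun a _ b _ hab => Complex.ofReal_injective hab
    refine Set.Finite.of_finite_image (f := fun x : ℝ => (x : ℂ)) (hfin.subset ?_) hinj
    rintro _ ⟨x, hx, rfl⟩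
    exact ⟨hcon _, abs_nonneg _, by simpa using hx.1, by simpa using hx.2⟩
  have htop0 : analyticOrderAt Xi z₀ ≠ ⊤ := by
    rw [(han z₀ (Set.mem_univ _)).analyticOrderAt_eq_zero.2 hz₀]
    simp
  have htop : analyticOrderAt Xi z ≠ ⊤ :=
    AnalyticOnNhd.analyticOrderAt_ne_top_of_isPreconnected han isPreconnected_univ (Set.mem_univ z₀) (Set.mem_univ z) htop0
  have hne : analyticOrderAt Xi z ≠ 0 := by
    rw [Ne, (han z (Set.mem_univ _)).analyticOrderAt_eq_zero]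
    simpa using h
  unfold analyticOrderNatAt
  rw [Nat.one_le_iff_ne_zero]
  intro h0
  rw [ENat.toNat_eq_zero] at h0
  rcases h0 with h0 | h0
  · exact hne h0
  · exact htop h0

/-- the zeros at distance at least `δ` from the real line with positive real part -/
def Far (δ : ℝ) : Set ℂ := {z | Xi z = 0 ∧ δ ≤ |z.im| ∧ 0 < z.re}

theorem far_eq (δ T : ℝ) : {z | z ∈ Far δ ∧ z.re ≤ T} = Off δ T := by
  ext z
  constructor
  · rintro ⟨⟨h1, h2, h3⟩, h4⟩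
    exact ⟨h1, h2, h3, h4⟩
  · rintro ⟨h1, h2, h3, h4⟩
    exact ⟨⟨h1, h2, h3⟩, h4⟩

theorem far_count (δ : ℝ) (hδ0 : 0 ≤ δ) (hδ : δ ≤ 1) (hfin : ∀ X : ℝ, {z | z ∈ Far δ ∧ z.re ≤ X}.Finite) (ε : ℝ) (hε : 0 < ε) :
    ∃ C : ℝ, 0 ≤ C ∧ ∀ X : ℝ, 1 ≤ X → ∑ z ∈ (hfin X).toFinset, (analyticOrderNatAt Xi z : ℝ) ≤ C * X ^ (1 - δ + ε) := by
  obtain ⟨C, hC, h⟩ := Pool.Agent.Results.MP_cd509c_nt.ZeroDensity.result (1 - ε / 2) (by linarith)
  refine ⟨C * 2 ^ (1 - δ + ε / 2) * (2 ^ (ε / 2) / (ε / 2)), by positivity, fun X hX => ?_⟩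
  have hX0 : 0 < X := by linarith
  obtain ⟨h1, h2⟩ := h δ (2 * X) hδ0 (by linarith)
  have e : (num (Off δ (2 * X)) : ℝ) = ∑ z ∈ h1.toFinset, (analyticOrderNatAt Xi z : ℝ) := by
    unfold Pool.Agent.Results.MP_cd509c_nt.ZeroDensity.num
    rw [finsum_mem_eq_finite_toFinset_sum _ h1]
    push_cast
    rfl
  have h3 : ∑ z ∈ (hfin X).toFinset, (analyticOrderNatAt Xi z : ℝ) ≤ ∑ z ∈ h1.toFinset, (analyticOrderNatAt Xi z : ℝ) := by
    apply sum_le_sum_of_subset_of_nonneg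
    · intro z hz
      rw [Set.Finite.mem_toFinset] at hz ⊢
      exact ⟨hz.1.1, hz.1.2.1, hz.1.2.2, hz.2.trans (by linarith)⟩
    · intro z _ _
      positivity
  refine h3.trans ?_
  rw [← e]
  refine h2.trans ?_
  have h4 : (2 * X) ^ (1 - (1 - ε / 2) * δ) ≤ (2 * X) ^ (1 - δ + ε / 2) :=
    Real.rpow_le_rpow_of_exponent_le (by linarith) (by nlinarith)
  have h5 := Real.log_le_rpow_div (show 0 ≤ 2 * X by linarith) (show 0 < ε / 2 by positivity)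
  have h6 : 0 ≤ Real.log (2 * X) := Real.log_nonneg (by linarith)
  calc C * (2 * X) ^ (1 - (1 - ε / 2) * δ) * Real.log (2 * X) ≤ C * (2 * X) ^ (1 - δ + ε / 2) * ((2 * X) ^ (ε / 2) / (ε / 2)) := by
        apply mul_le_mul _ h5 h6 (by positivity)
        exact mul_le_mul_of_nonneg_left h4 hC.le
    _ = C * 2 ^ (1 - δ + ε / 2) * (2 ^ (ε / 2) / (ε / 2)) * (X ^ (1 - δ + ε / 2) * X ^ (ε / 2)) := by
        rw [Real.mul_rpow (by norm_num) hX0.le, Real.mul_rpow (by norm_num) hX0.le]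
        ring
    _ = C * 2 ^ (1 - δ + ε / 2) * (2 ^ (ε / 2) / (ε / 2)) * X ^ (1 - δ + ε) := by
        rw [← Real.rpow_add hX0]
        congr 2
        ring

/-- Let `v_i ≥ 1` with `∑ v_i ^ (-t) < ∞` for all `t > τ` (`τ ≥ 0`; for example `v_i = 2 ^ i`, `τ = 0`), `0 ≤ θ < 1` and `0 ≤ δ ≤ 1`.
(1) There is a set `E` of reals of Hausdorff dimension at most `(1 - δ + τ) / (1 - θ)` such that for every real `α > 0` outside `E` and all
`i ≥ i₀` ALL zeros `z` of the Ramanujan Xi function `Ξ_Δ` with `Re z > 0` and `|Re z - α v_i| ≤ v_i ^ θ` satisfy `|Im z| < δ`.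
(2) For `0 ≤ β ≤ 1 - δ` there is a set `E` of dimension at most `(1 - δ - β + τ) / (1 - θ)` such that for every `α > 0` outside `E` and
all `i ≥ i₀` the number, with multiplicities, of the zeros `z` of `Ξ_Δ` with `Re z > 0`, `|Re z - α v_i| ≤ v_i ^ θ` and `|Im z| ≥ δ` is
at most `v_i ^ β`. -/
theorem result (v : ℕ → ℝ) (τ θ δ : ℝ) (hv1 : ∀ i, 1 ≤ v i) (hτ : 0 ≤ τ) (hθ0 : 0 ≤ θ) (hθ : θ < 1)
    (hv : ∀ t : ℝ, τ < t → Summable (fun i => v i ^ (-t))) (hδ0 : 0 ≤ δ) (hδ : δ ≤ 1) :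
    (∃ E : Set ℝ, dimH E ≤ ENNReal.ofReal ((1 - δ + τ) / (1 - θ)) ∧ ∀ α : ℝ, 0 < α → α ∉ E → ∃ i₀ : ℕ, ∀ i : ℕ, i₀ ≤ i →
      ∀ z : ℂ, Xi z = 0 → 0 < z.re → |z.re - α * v i| ≤ v i ^ θ → |z.im| < δ) ∧
    ∀ β : ℝ, 0 ≤ β → β ≤ 1 - δ →
      ∃ E : Set ℝ, dimH E ≤ ENNReal.ofReal ((1 - δ - β + τ) / (1 - θ)) ∧ ∀ α : ℝ, 0 < α → α ∉ E → ∃ i₀ : ℕ, ∀ i : ℕ, i₀ ≤ i →
        ∀ S : Finset ℂ, (∀ z ∈ S, Xi z = 0 ∧ 0 < z.re ∧ |z.re - α * v i| ≤ v i ^ θ ∧ δ ≤ |z.im|) →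
          ∑ z ∈ S, (analyticOrderNatAt Xi z : ℝ) ≤ v i ^ β := by
  have hfin : ∀ X : ℝ, {z | z ∈ Far δ ∧ z.re ≤ X}.Finite := fun X => by
    rw [far_eq]
    exact off_finite δ X hδ0
  refine ⟨?_, fun β hβ0 hβ => ?_⟩
  · obtain ⟨E, hE, h⟩ := Pool.Agent.Y854.GM.windows (Far δ) (fun z => z.re) hv1 hτ (show Pool.Agent.Y854.GM.ExpLe v τ from hv)
      (s := 1 - δ) (by linarith) hθ (by
      intro ε hε
      obtain ⟨C, hC, h⟩ := far_count δ hδ0 hδ hfin ε hε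
      refine ⟨C, fun X hX => ⟨hfin X, le_trans ?_ (h X hX)⟩⟩
      rw [Set.ncard_eq_toFinset_card _ (hfin X), ← nsmul_one]
      refine Finset.card_nsmul_le_sum _ _ _ fun z hz => ?_
      exact_mod_cast order_pos ((hfin X).mem_toFinset.1 hz).1.1)
    refine ⟨E, hE, fun α hα hαE => ?_⟩
    obtain ⟨i₀, hi₀⟩ := h α hα hαE
    refine ⟨i₀, fun i hi z hz hre hwin => ?_⟩
    by_contra hcon
    rw [not_lt] at hcon
    have := hi₀ i hi z ⟨hz, hcon, hre⟩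
    linarith
  · obtain ⟨E, hE, h⟩ := Pool.Agent.X35.ZW.weight_windows (Far δ) (fun z => z.re) (fun z => (analyticOrderNatAt Xi z : ℝ))
      (fun z _ => by positivity) (1 - δ) β hβ0 (by linarith) hfin (fun ε hε => by
        obtain ⟨C, hC, h⟩ := far_count δ hδ0 hδ hfin ε hε
        exact ⟨C, h⟩) hv1 hτ hv hθ0 hθ
    refine ⟨E, hE, fun α hα hαE => ?_⟩
    obtain ⟨i₀, hi₀⟩ := h α hα hαE
    refine ⟨i₀, fun i hi S hS => hi₀ i hi S fun z hz => ?_⟩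
    obtain ⟨h1, h2, h3, h4⟩ := hS z hz
    exact ⟨⟨h1, h4, h2⟩, h3⟩

end Pool.Agent.Results.MP_cd509c_nt.ZerosNearSequences
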